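import Pool.Agent.H979.GW.StmB

set_option autoImplicit false
set_option linter.unusedSectionVars false
set_option linter.unusedVariables false

open MeasureTheory ProbabilityTheory Filter Topology Set
open scoped ENNReal NNReal

namespace Pool.Agent.H27

open Pool.Agent.H979.GW
open Pool.Agent.H979.QIP (P K V bm S)

section qv

variable {Λ : Type} [DecidableEq Λ]

open Classical in
/-- the exact reversible measure of the walk, as a real number -/
noncomputable def piR (ρ : ℝ) (ch : List Λ → Finset Λ) (v : List Λ) : ℝ :=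
  if InT ch v then
    (if v = [] then ((ch []).card : ℝ) else (ρ⁻¹) ^ v.length * (ρ + (ch v).card)) else 0

theorem piR_nonneg {ρ : ℝ} (hρ : 0 < ρ) (ch : List Λ → Finset Λ) (v : List Λ) :
    0 ≤ piR ρ ch v := by
  unfold piR
  split_ifs <;> positivity

theorem piR_out {ρ : ℝ} {ch : List Λ → Finset Λ} {v : List Λ} (h : ¬ InT ch v) :
    piR ρ ch v = 0 := by
  unfold piR
  rw [if_neg h]

theorem piR_nil {ρ : ℝ} {ch : List Λ → Finset Λ} : piR ρ ch [] = (ch []).card := by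
  unfold piR
  rw [if_pos (by trivial), if_pos rfl]

theorem piR_cons {ρ : ℝ} {ch : List Λ → Finset Λ} {a : Λ} {v : List Λ} (h : InT ch (a :: v)) :
    piR ρ ch (a :: v) = (ρ⁻¹) ^ (v.length + 1) * (ρ + (ch (a :: v)).card) := by
  unfold piR
  rw [if_pos h, if_neg (by simp)]
  simp

theorem stp_parent {ρ : ℝ} (ch : List Λ → Finset Λ) (a : Λ) (v : List Λ) :
    stp ρ ch (a :: v) {v} = ENNReal.ofReal (ρ / (ρ + (ch (a :: v)).card)) := by
  unfold stp
  simp only [Measure.coe_add, Pi.add_apply, Measure.smul_apply, smul_eq_mul,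
    Measure.coe_finsetSum, Finset.sum_apply]
  have e1 : (Measure.dirac v : Measure (List Λ)) {v} = 1 := by
    rw [Measure.dirac_apply' _ (by trivial)]; simp
  have e2 : ∀ b : Λ, (Measure.dirac (b :: a :: v) : Measure (List Λ)) {v} = 0 := fun b => by
    rw [Measure.dirac_apply' _ (by trivial)]
    apply Set.indicator_of_notMem
    intro h
    have := congrArg List.length (Set.mem_singleton_iff.1 h)
    simp at this
    omega
  rw [e1]
  simp [e2]

theorem stp_child_nil {ρ : ℝ} (ch : List Λ → Finset Λ) (b : Λ) (hb : b ∈ ch []) :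
    stp ρ ch [] {[b]} = ENNReal.ofReal (1 / (ch []).card) := by
  unfold stp
  rw [if_neg (Finset.card_ne_zero_of_mem hb)]
  simp only [Measure.smul_apply, smul_eq_mul, Measure.coe_finsetSum, Finset.sum_apply]
  rw [Finset.sum_eq_single b]
  · rw [Measure.dirac_apply' _ (by trivial)]; simp
  · intro c _ hc
    rw [Measure.dirac_apply' _ (by trivial), Set.indicator_of_notMem, mul_zero]
    intro h
    exact hc (List.cons.inj (Set.mem_singleton_iff.1 h)).1
  · exact fun h => absurd hb h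

theorem stp_child_cons {ρ : ℝ} (ch : List Λ → Finset Λ) (b a : Λ) (v : List Λ)
    (hb : b ∈ ch (a :: v)) :
    stp ρ ch (a :: v) {b :: a :: v} = ENNReal.ofReal (1 / (ρ + (ch (a :: v)).card)) := by
  unfold stp
  simp only [Measure.coe_add, Pi.add_apply, Measure.smul_apply, smul_eq_mul,
    Measure.coe_finsetSum, Finset.sum_apply]
  rw [Measure.dirac_apply' _ (by trivial), Set.indicator_of_notMem, mul_zero, zero_add,
    Finset.sum_eq_single b]
  · rw [Measure.dirac_apply' _ (by trivial)]; simp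
  · intro c _ hc
    rw [Measure.dirac_apply' _ (by trivial), Set.indicator_of_notMem, mul_zero]
    intro h
    exact hc (List.cons.inj (Set.mem_singleton_iff.1 h)).1
  · exact fun h => absurd hb h
  · intro h
    have := congrArg List.length (Set.mem_singleton_iff.1 h)
    simp only [List.length_cons] at this
    omega

theorem stp_none {ρ : ℝ} (ch : List Λ → Finset Λ) (h0 : (ch []).card ≠ 0) (x y : List Λ)
    (h1 : ¬ ∃ b, b ∈ ch x ∧ y = b :: x) (h2 : ¬ ∃ a, x = a :: y) :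
    stp ρ ch x {y} = 0 := by
  have key : ∀ b ∈ ch x, (Measure.dirac (b :: x) : Measure (List Λ)) {y} = 0 := fun b hb => by
    rw [Measure.dirac_apply' _ (by trivial)]
    apply Set.indicator_of_notMem
    intro h
    exact h1 ⟨b, hb, (Set.mem_singleton_iff.1 h).symm⟩
  cases x with
  | nil =>
    unfold stp
    rw [if_neg h0]
    simp only [Measure.smul_apply, smul_eq_mul, Measure.coe_finsetSum, Finset.sum_apply]
    exact Finset.sum_eq_zero fun c hc => by rw [key c hc, mul_zero]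
  | cons a v =>
    unfold stp
    simp only [Measure.coe_add, Pi.add_apply, Measure.smul_apply, smul_eq_mul,
      Measure.coe_finsetSum, Finset.sum_apply]
    rw [Finset.sum_eq_zero fun c hc => by rw [key c hc, mul_zero], add_zero,
      Measure.dirac_apply' _ (by trivial), Set.indicator_of_notMem, mul_zero]
    intro h
    exact h2 ⟨a, by rw [Set.mem_singleton_iff.1 h]⟩

theorem rev_child {ρ : ℝ} (hρ : 0 < ρ) (ch : List Λ → Finset Λ) (x : List Λ) (b : Λ)
    (hb : b ∈ ch x) :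
    ENNReal.ofReal (piR ρ ch x) * stp ρ ch x {b :: x} =
      ENNReal.ofReal (piR ρ ch (b :: x)) * stp ρ ch (b :: x) {x} := by
  by_cases hx : InT ch x
  · have hbx : InT ch (b :: x) := ⟨hx, hb⟩
    rw [stp_parent, piR_cons hbx, ← ENNReal.ofReal_mul (by positivity)]
    have h3 : (0 : ℝ) < ρ + (ch (b :: x)).card := by positivity
    cases x with
    | nil =>
      have h4 : (0 : ℝ) < (ch []).card := by
        have := Finset.card_ne_zero_of_mem hb
        positivity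
      rw [piR_nil, stp_child_nil ch b hb, ← ENNReal.ofReal_mul (by positivity)]
      congr 1
      simp only [List.length_nil, zero_add, pow_one]
      rw [mul_one_div, div_self h4.ne', mul_assoc, mul_div_cancel₀ _ h3.ne',
        inv_mul_cancel₀ hρ.ne']
    | cons a v =>
      have h4 : (0 : ℝ) < ρ + (ch (a :: v)).card := by positivity
      rw [piR_cons hx, stp_child_cons ch b a v hb, ← ENNReal.ofReal_mul (by positivity)]
      congr 1
      simp only [List.length_cons]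
      rw [pow_succ (ρ⁻¹) (v.length + 1)]
      field_simp
      try ring
  · have hbx : ¬ InT ch (b :: x) := fun h => hx h.1
    rw [piR_out hx, piR_out hbx]
    simp

theorem rev_stp {ρ : ℝ} (hρ : 0 < ρ) (ch : List Λ → Finset Λ) (h0 : (ch []).card ≠ 0)
    (x y : List Λ) :
    ENNReal.ofReal (piR ρ ch x) * stp ρ ch x {y} =
      ENNReal.ofReal (piR ρ ch y) * stp ρ ch y {x} := by
  -- a vertex whose head is not a child
  have out : ∀ (u : List Λ) (a : Λ), a ∉ ch u →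
      ENNReal.ofReal (piR ρ ch (a :: u)) = 0 := fun u a h => by
    have h3 : ¬ InT ch (a :: u) := by
      intro h'
      exact h (show InT ch u ∧ a ∈ ch u from h').2
    rw [piR_out h3]; simp
  have none' : ∀ (u : List Λ) (a : Λ), a ∉ ch u → stp ρ ch u {a :: u} = 0 := fun u a h => by
    refine stp_none ch h0 _ _ ?_ ?_
    · rintro ⟨b, hb, h2⟩
      rw [(List.cons.inj h2).1] at h
      exact h hb
    · rintro ⟨b, h2⟩
      have := congrArg List.length h2
      simp only [List.length_cons] at this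
      omega
  by_cases h1 : ∃ b, b ∈ ch x ∧ y = b :: x
  · obtain ⟨b, hb, rfl⟩ := h1
    exact rev_child hρ ch x b hb
  by_cases h2 : ∃ a, x = a :: y
  · obtain ⟨a, rfl⟩ := h2
    by_cases ha : a ∈ ch y
    · exact (rev_child hρ ch y a ha).symm
    · rw [out y a ha, none' y a ha]; simp
  rw [stp_none ch h0 x y h1 h2, mul_zero]
  by_cases h3 : ∃ a, y = a :: x
  · obtain ⟨a, rfl⟩ := h3
    have ha : a ∉ ch x := fun h => h1 ⟨a, h, rfl⟩
    rw [out x a ha, zero_mul]
  · rw [stp_none ch h0 y x ?_ h3, mul_zero]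
    rintro ⟨b, hb, h4⟩
    exact h2 ⟨b, h4⟩

/-- the potential -/
noncomputable def Ph (ρ : ℝ) (Γ : List Λ → ℝ) (v : List Λ) : ℝ := ρ⁻¹ * Sf Γ v

theorem Ph_cons (ρ : ℝ) (Γ : List Λ → ℝ) (b : Λ) (v : List Λ) :
    Ph ρ Γ (b :: v) - Ph ρ Γ v = ρ⁻¹ * Γ (b :: v) := by
  unfold Ph
  simp only [Sf]
  ring

theorem Ph_cons' (ρ : ℝ) (Γ : List Λ → ℝ) (b : Λ) (v : List Λ) :
    Ph ρ Γ v - Ph ρ Γ (b :: v) = - (ρ⁻¹ * Γ (b :: v)) := by
  rw [← Ph_cons]; ring

theorem V_stp {ρ : ℝ} (hρ : 0 < ρ) {ch : List Λ → Finset Λ} (h : (ch []).card ≠ 0)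
    (ξ : List Λ → List Λ → ℝ) (x : List Λ) :
    V (stp ρ ch) ξ x = ENNReal.ofReal (Pop ρ ch (fun y => ξ x y ^ 2) x) := by
  unfold V
  rw [← integral_stp hρ h, ofReal_integral_eq_lintegral_ofReal (integrable_stp ρ ch x _)
    (Eventually.of_forall fun w => sq_nonneg _)]

/-- the energy density -/
noncomputable def en (ρ : ℝ) (ch : List Λ → Finset Λ) (Γ : List Λ → ℝ) (x : List Λ) : ℝ :=
  (ρ⁻¹) ^ x.length * (ρ * (ρ⁻¹ * Γ x) ^ 2 + ∑ b ∈ ch x, (ρ⁻¹ * Γ (b :: x)) ^ 2)

theorem en_nonneg {ρ : ℝ} (hρ : 0 < ρ) (ch : List Λ → Finset Λ) (Γ : List Λ → ℝ)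
    (x : List Λ) : 0 ≤ en ρ ch Γ x := by
  unfold en
  have : 0 ≤ ∑ b ∈ ch x, (ρ⁻¹ * Γ (b :: x)) ^ 2 := Finset.sum_nonneg fun _ _ => sq_nonneg _
  positivity

theorem pi_Pop_le {ρ : ℝ} (hρ : 0 < ρ) {ch : List Λ → Finset Λ} (h : (ch []).card ≠ 0)
    (Γ : List Λ → ℝ) (x : List Λ) (hx : InT ch x) :
    piR ρ ch x * Pop ρ ch (fun y => (Ph ρ Γ y - Ph ρ Γ x) ^ 2) x ≤ en ρ ch Γ x := by
  cases x with
  | nil =>
    rw [Pop_nil, piR_nil]
    have h4 : (0 : ℝ) < (ch []).card := by positivity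
    unfold en
    rw [mul_div_cancel₀ _ h4.ne']
    simp only [List.length_nil, pow_zero, one_mul]
    have : ∑ c ∈ ch [], (Ph ρ Γ [c] - Ph ρ Γ []) ^ 2 = ∑ b ∈ ch [], (ρ⁻¹ * Γ [b]) ^ 2 :=
      Finset.sum_congr rfl fun c _ => by rw [Ph_cons]
    rw [this]
    have h5 : 0 ≤ ρ * (ρ⁻¹ * Γ []) ^ 2 := by positivity
    linarith
  | cons a v =>
    rw [Pop_cons, piR_cons hx]
    have h4 : (0 : ℝ) < ρ + (ch (a :: v)).card := by positivity
    unfold en
    rw [mul_assoc, mul_div_cancel₀ _ h4.ne']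
    simp only [List.length_cons]
    have : ∑ b ∈ ch (a :: v), (Ph ρ Γ (b :: a :: v) - Ph ρ Γ (a :: v)) ^ 2 =
        ∑ b ∈ ch (a :: v), (ρ⁻¹ * Γ (b :: a :: v)) ^ 2 :=
      Finset.sum_congr rfl fun c _ => by rw [Ph_cons]
    rw [this, Ph_cons', neg_sq]

theorem sum_en_le {ρ : ℝ} (hρ : 1 < ρ) {ch : List Λ → Finset Λ} {Γ F : List Λ → ℝ} {C : ℝ}
    (hF : ∀ k, ∑ v ∈ Lev ch k, (ρ⁻¹) ^ k * F v ^ 2 ≤ C)
    (hG : ∀ v, InT ch v → |Γ v| ≤ F v) (k : ℕ) : ∑ v ∈ Lev ch k, en ρ ch Γ v ≤ 2 * C := by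
  have hρ0 : 0 < ρ := zero_lt_one.trans hρ
  have hi : ρ⁻¹ ≤ 1 := inv_le_one_of_one_le₀ hρ.le
  have hG2 : ∀ k, ∑ v ∈ Lev ch k, (ρ⁻¹) ^ k * Γ v ^ 2 ≤ C := fun k => by
    refine le_trans (Finset.sum_le_sum fun v hv => ?_) (hF k)
    have h1 := hG v (mem_Lev.1 hv).2
    have h2 : Γ v ^ 2 ≤ F v ^ 2 := by
      rw [← sq_abs]
      exact pow_le_pow_left₀ (abs_nonneg _) h1 2
    exact mul_le_mul_of_nonneg_left h2 (by positivity)
  have hC : 0 ≤ C := le_trans (Finset.sum_nonneg fun v _ => by positivity) (hG2 0)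
  have e : ∑ v ∈ Lev ch k, en ρ ch Γ v = ρ⁻¹ * ∑ v ∈ Lev ch k, (ρ⁻¹) ^ k * Γ v ^ 2 +
      ρ⁻¹ * ∑ v ∈ Lev ch (k + 1), (ρ⁻¹) ^ (k + 1) * Γ v ^ 2 := by
    rw [sum_Lev_succ, Finset.mul_sum, Finset.mul_sum, ← Finset.sum_add_distrib]
    refine Finset.sum_congr rfl fun v hv => ?_
    unfold en
    rw [(mem_Lev.1 hv).1, Finset.mul_sum, mul_add, Finset.mul_sum]
    congr 1
    · field_simp
    · refine Finset.sum_congr rfl fun b _ => ?_
      rw [pow_succ]; ring
  rw [e]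
  have h1 : ρ⁻¹ * ∑ v ∈ Lev ch k, (ρ⁻¹) ^ k * Γ v ^ 2 ≤ 1 * C :=
    mul_le_mul hi (hG2 k) (Finset.sum_nonneg fun v _ => by positivity) zero_le_one
  have h2 : ρ⁻¹ * ∑ v ∈ Lev ch (k + 1), (ρ⁻¹) ^ (k + 1) * Γ v ^ 2 ≤ 1 * C :=
    mul_le_mul hi (hG2 (k + 1)) (Finset.sum_nonneg fun v _ => by positivity) zero_le_one
  linarith

theorem tsum_energy {ρ : ℝ} (hρ : 1 < ρ) {ch : List Λ → Finset Λ} (h0 : (ch []).card ≠ 0)
    {Γ F : List Λ → ℝ} {C : ℝ} (hF : ∀ k, ∑ v ∈ Lev ch k, (ρ⁻¹) ^ k * F v ^ 2 ≤ C)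
    (hG : ∀ v, InT ch v → |Γ v| ≤ F v) (H : ℕ) (hH : ∀ v, H < v.length → Γ v = 0) :
    ∑' x, ENNReal.ofReal (piR ρ ch x) *
      V (stp ρ ch) (fun x y => Ph ρ Γ y - Ph ρ Γ x) x ≤ ENNReal.ofReal ((H + 1) * (2 * C)) := by
  have hρ0 : 0 < ρ := zero_lt_one.trans hρ
  have hz : ∀ x ∉ (Finset.range (H + 1)).biUnion (Lev ch), ENNReal.ofReal (piR ρ ch x) *
      V (stp ρ ch) (fun x y => Ph ρ Γ y - Ph ρ Γ x) x = 0 := by
    intro x hx
    by_cases hT : InT ch x
    · have hl : H < x.length := by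
        by_contra hcon
        apply hx
        rw [Finset.mem_biUnion]
        exact ⟨x.length, Finset.mem_range.2 (by omega), mem_Lev.2 ⟨rfl, hT⟩⟩
      rw [V_stp hρ0 h0]
      have : Pop ρ ch (fun y => (Ph ρ Γ y - Ph ρ Γ x) ^ 2) x = 0 := by
        cases x with
        | nil => simp at hl
        | cons a v =>
          rw [Pop_cons, Ph_cons', hH (a :: v) hl, Finset.sum_eq_zero]
          · simp
          · intro b _
            rw [Ph_cons, hH (b :: a :: v) (by simp at hl ⊢; omega)]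
            simp
      rw [this]; simp
    · rw [piR_out hT]; simp
  rw [tsum_eq_sum hz]
  have h1 : ∀ x ∈ (Finset.range (H + 1)).biUnion (Lev ch), ENNReal.ofReal (piR ρ ch x) *
      V (stp ρ ch) (fun x y => Ph ρ Γ y - Ph ρ Γ x) x ≤ ENNReal.ofReal (en ρ ch Γ x) := by
    intro x hx
    rw [V_stp hρ0 h0, ← ENNReal.ofReal_mul (piR_nonneg hρ0 ch x)]
    refine ENNReal.ofReal_le_ofReal (pi_Pop_le hρ0 h0 Γ x ?_)
    obtain ⟨k, _, hk⟩ := Finset.mem_biUnion.1 hx
    exact (mem_Lev.1 hk).2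
  refine le_trans (Finset.sum_le_sum h1) ?_
  rw [← ENNReal.ofReal_sum_of_nonneg fun x _ => en_nonneg hρ0 ch Γ x]
  refine ENNReal.ofReal_le_ofReal ?_
  rw [Finset.sum_biUnion]
  · refine le_trans (Finset.sum_le_sum fun k _ => sum_en_le hρ hF hG k) ?_
    rw [Finset.sum_const, Finset.card_range, nsmul_eq_mul]
    push_cast
    exact le_rfl
  · intro i _ j _ hij
    simp only [Function.onFun]
    rw [Finset.disjoint_left]
    intro x hx hy
    exact hij ((mem_Lev.1 hx).1.symm.trans (mem_Lev.1 hy).1)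

theorem bm_stp {ρ : ℝ} (hρ : 0 < ρ) {ch : List Λ → Finset Λ} (h : (ch []).card ≠ 0)
    (ξ : List Λ → List Λ → ℝ) (x : List Λ) :
    bm (stp ρ ch) ξ x = Pop ρ ch (fun y => ξ x y) x := by
  unfold bm
  rw [integral_stp hρ h]

theorem bm_cons {ρ : ℝ} (hρ : 0 < ρ) {ch : List Λ → Finset Λ} (h : (ch []).card ≠ 0)
    {Γ g : List Λ → ℝ} {c : ℝ} (a : Λ) (v : List Λ)
    (hΓ : Γ (a :: v) = (ρ + (ch (a :: v)).card) * (g (a :: v) - c) +
      ρ⁻¹ * ∑ b ∈ ch (a :: v), Γ (b :: a :: v)) :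
    bm (stp ρ ch) (fun x y => Ph ρ Γ y - Ph ρ Γ x) (a :: v) = - (g (a :: v) - c) := by
  rw [bm_stp hρ h, Pop_cons, Ph_cons']
  have h4 : (0 : ℝ) < ρ + (ch (a :: v)).card := by positivity
  have : ∑ b ∈ ch (a :: v), (Ph ρ Γ (b :: a :: v) - Ph ρ Γ (a :: v)) =
      ρ⁻¹ * ∑ b ∈ ch (a :: v), Γ (b :: a :: v) := by
    rw [Finset.mul_sum]
    exact Finset.sum_congr rfl fun c _ => by rw [Ph_cons]
  rw [this, div_eq_iff h4.ne']
  have h5 : ρ * -(ρ⁻¹ * Γ (a :: v)) = - Γ (a :: v) := by field_simp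
  rw [h5, hΓ]
  ring

theorem bm_nil {ρ : ℝ} (hρ : 0 < ρ) {ch : List Λ → Finset Λ} (h : (ch []).card ≠ 0)
    {Γ F : List Λ → ℝ} (hG : ∀ v, InT ch v → |Γ v| ≤ F v) :
    |bm (stp ρ ch) (fun x y => Ph ρ Γ y - Ph ρ Γ x) []| ≤
      (∑ b ∈ ch [], ρ⁻¹ * F [b]) / (ch []).card := by
  rw [bm_stp hρ h, Pop_nil, abs_div, Nat.abs_cast]
  refine div_le_div_of_nonneg_right ?_ (Nat.cast_nonneg _)
  refine le_trans (Finset.abs_sum_le_sum_abs _ _) (Finset.sum_le_sum fun b hb => ?_)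
  rw [Ph_cons, abs_mul, abs_of_nonneg (inv_nonneg.2 hρ.le)]
  exact mul_le_mul_of_nonneg_left (hG [b] ⟨trivial, hb⟩) (inv_nonneg.2 hρ.le)

/-- the pathwise bound -/
theorem path_bound {ρ : ℝ} (hρ : 0 < ρ) {ch : List Λ → Finset Λ} (h0 : (ch []).card ≠ 0)
    {Γ F g : List Λ → ℝ} {c : ℝ} {H : ℕ} (hG : ∀ v, InT ch v → |Γ v| ≤ F v)
    (hE : ∀ v, InT ch v → v ≠ [] → v.length ≤ H →
      Γ v = (ρ + (ch v).card) * (g v - c) + ρ⁻¹ * ∑ b ∈ ch v, Γ (b :: v))
    (w : ℕ → List Λ) (n : ℕ) (hT : ∀ s, InT ch (w s)) (hw : ∀ s < n, (w s).length ≤ H) :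
    |∑ s ∈ Finset.range n, g (w s) - c * n| ≤
      |∑ s ∈ Finset.range n, bm (stp ρ ch) (fun x y => Ph ρ Γ y - Ph ρ Γ x) (w s)| +
      ((∑ b ∈ ch [], ρ⁻¹ * F [b]) / (ch []).card + |g [] - c|) *
        ∑ s ∈ Finset.range n, (if w s = [] then (1 : ℝ) else 0) := by
  have e : ∑ s ∈ Finset.range n, g (w s) - c * n =
      - ∑ s ∈ Finset.range n, bm (stp ρ ch) (fun x y => Ph ρ Γ y - Ph ρ Γ x) (w s) +
      ∑ s ∈ Finset.range n, (g (w s) - c +
        bm (stp ρ ch) (fun x y => Ph ρ Γ y - Ph ρ Γ x) (w s)) := by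
    rw [Finset.sum_add_distrib, Finset.sum_sub_distrib, Finset.sum_const, Finset.card_range,
      nsmul_eq_mul]
    ring
  rw [e]
  refine le_trans (abs_add_le _ _) ?_
  rw [abs_neg]
  refine add_le_add le_rfl ?_
  refine le_trans (Finset.abs_sum_le_sum_abs _ _) ?_
  rw [Finset.mul_sum]
  refine Finset.sum_le_sum fun s hs => ?_
  have hsn := Finset.mem_range.1 hs
  by_cases hv : w s = []
  · rw [if_pos hv, hv, mul_one]
    have h1 := bm_nil hρ h0 hG
    refine le_trans (abs_add_le _ _) ?_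
    linarith
  · rw [if_neg hv, mul_zero]
    have h1 := hE (w s) (hT s) hv (hw s hsn)
    obtain ⟨a, v, hav⟩ := List.exists_cons_of_ne_nil hv
    rw [hav] at h1 ⊢
    rw [bm_cons hρ h0 a v h1]
    simp

variable [Countable Λ]

theorem meas_coord {β : Type*} [MeasurableSpace β] (f : List Λ → β) (s : ℕ) :
    Measurable (fun w : ℕ → List Λ => f (w s)) :=
  measurable_from_top.comp (measurable_pi_apply s)

theorem cheb {μ : Measure (ℕ → List Λ)} {f : (ℕ → List Λ) → ℝ} (hf : Measurable f)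
    {M a : ℝ} (ha : 0 < a) (hM : 0 ≤ M) (h : ∫⁻ w, ENNReal.ofReal (f w) ∂μ ≤ ENNReal.ofReal M) :
    μ {w | a ≤ f w} ≤ ENNReal.ofReal (M / a) := by
  have h1 := mul_meas_ge_le_lintegral (μ := μ) hf.ennreal_ofReal (ENNReal.ofReal a)
  have h2 : μ {w | a ≤ f w} ≤ μ {w | ENNReal.ofReal a ≤ ENNReal.ofReal (f w)} :=
    measure_mono fun w hw => ENNReal.ofReal_le_ofReal hw
  rw [ENNReal.ofReal_div_of_pos ha, ENNReal.le_div_iff_mul_le
    (Or.inl (by simpa using ha)) (Or.inl ENNReal.ofReal_ne_top), mul_comm]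
  exact le_trans (mul_le_mul_right h2 _) (le_trans h1 h)

end qv

open Classical in
/-- **QV**: averages along the walk by Poisson equations -/
theorem gw_qv (h1 : S_RV2) (h2 : S_OCC) (h3 : S_INT) : S_QV := by
  intro Λ _ _ ρ hρF ch W cL σ2 η hReg g c hPois A δ hA hδ
  have hρ : 1 < ρ := hReg.rho
  have hρ0 : 0 < ρ := zero_lt_one.trans hρ
  have h0 : (ch []).card ≠ 0 := by
    intro h
    have h4 := hReg.W_rec [] trivial
    rw [Finset.card_eq_zero.1 h, Finset.sum_empty] at h4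
    have := hReg.W_root
    have h5 : 0 < ρ * W [] := mul_pos hρ0 this
    linarith
  obtain ⟨C, F, hF, hP⟩ := hPois
  obtain ⟨C', hC', hocc⟩ := h2 Λ ρ ch W cL σ2 η hReg
  have hC : 0 ≤ C := by
    obtain ⟨Γ, -, hG, -⟩ := hP 0
    refine le_trans (Finset.sum_nonneg fun v _ => ?_) (hF 0)
    positivity
  set K0 : ℝ := (∑ b ∈ ch [], ρ⁻¹ * F [b]) / (ch []).card + |g [] - c| with hK0
  have hK0n : 0 ≤ K0 := by
    obtain ⟨Γ, -, hG, -⟩ := hP 0
    refine add_nonneg (div_nonneg (Finset.sum_nonneg fun b hb => ?_) (Nat.cast_nonneg _))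
      (abs_nonneg _)
    exact mul_nonneg (inv_nonneg.2 hρ0.le) (le_trans (abs_nonneg _) (hG [b] ⟨trivial, hb⟩))
  -- the number of visits of the root
  set B : ℝ := C' * (ρ + (ch []).card) with hB
  have hBn : 0 ≤ B := by positivity
  have hroot : ∀ n : ℕ, 1 ≤ n → ∫⁻ w, ENNReal.ofReal (∑ s ∈ Finset.range n,
      (if w s = [] then (1 : ℝ) else 0)) ∂(P (stp ρ ch) []) ≤ ENNReal.ofReal (B * √n) := by
    intro n hn
    have h5 := (hocc (fun v => if v = [] then (1 : ℝ) else 0)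
      (fun v => by split_ifs <;> norm_num)).1 n hn
    have e1 : ∀ w : ℕ → List Λ, ENNReal.ofReal (∑ s ∈ Finset.range n,
        (if w s = [] then (1 : ℝ) else 0)) = ∑ s ∈ Finset.range n,
        ENNReal.ofReal (if w s = [] then (1 : ℝ) else 0) := fun w =>
      ENNReal.ofReal_sum_of_nonneg fun s _ => by split_ifs <;> norm_num
    simp_rw [e1]
    rw [lintegral_finsetSum _ fun s _ =>
      (meas_coord (fun v : List Λ => if v = [] then (1 : ℝ) else 0) s).ennreal_ofReal]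
    have e2 : ∀ s, ∫⁻ w, ENNReal.ofReal (if w s = [] then (1 : ℝ) else 0) ∂(P (stp ρ ch) []) =
        ENNReal.ofReal ((Pop ρ ch)^[s] (fun v => if v = [] then (1 : ℝ) else 0) []) := fun s =>
      coord h0 (f := fun v => if v = [] then (1 : ℝ) else 0)
        (fun v => by split_ifs <;> norm_num) s []
    simp_rw [e2]
    rw [← ENNReal.ofReal_sum_of_nonneg fun s _ => Pop_iter_nonneg hρ0 ch
      (f := fun v => if v = [] then (1 : ℝ) else 0) (fun v => by split_ifs <;> norm_num) s []]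
    refine ENNReal.ofReal_le_ofReal (le_trans h5 ?_)
    have e3 : ∑ k ∈ Finset.range n, ∑ v ∈ Lev ch k, (ρ⁻¹) ^ k * (ρ + (ch v).card) *
        (if v = [] then (1 : ℝ) else 0) = ρ + (ch []).card := by
      rw [Finset.sum_eq_single 0]
      · rw [sum_Lev_zero]; simp
      · intro k _ hk
        refine Finset.sum_eq_zero fun v hv => ?_
        rw [if_neg, mul_zero]
        rintro rfl
        exact hk (mem_Lev.1 hv).1.symm
      · intro h; exact absurd (Finset.mem_range.2 (by omega)) h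
    rw [e3, hB]
    exact le_of_eq (by ring)
  -- the second moment
  have hsec : ∀ (n H : ℕ) (Γ : List Λ → ℝ), 1 ≤ n → (∀ v, H < v.length → Γ v = 0) →
      (∀ v, InT ch v → |Γ v| ≤ F v) →
      ∫⁻ w, ENNReal.ofReal ((∑ s ∈ Finset.range n,
        bm (stp ρ ch) (fun x y => Ph ρ Γ y - Ph ρ Γ x) (w s)) ^ 2) ∂(P (stp ρ ch) []) ≤
      ENNReal.ofReal (16 * n * ((H + 1) * (2 * C))) := by
    intro n H Γ hn hH hG
    have h5 := h1 (List Λ) (stp ρ ch) (fun x => ENNReal.ofReal (piR ρ ch x))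
      (fun x => ENNReal.ofReal_ne_top) (rev_stp hρ0 ch h0) (Ph ρ Γ)
      (fun x => by rw [V_stp hρ0 h0]; exact ENNReal.ofReal_ne_top) n [] hn
    have h6 : (1 : ℝ≥0∞) ≤ ENNReal.ofReal (piR ρ ch []) := by
      rw [piR_nil, ENNReal.one_le_ofReal]
      exact_mod_cast Nat.one_le_iff_ne_zero.2 h0
    have h7 := tsum_energy hρ h0 hF hG H hH
    calc _ ≤ ENNReal.ofReal (piR ρ ch []) * _ := le_mul_of_one_le_left zero_le h6
      _ ≤ _ := h5
      _ ≤ 16 * n * ENNReal.ofReal ((H + 1) * (2 * C)) := mul_le_mul_right h7 _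
      _ = _ := by
        rw [ENNReal.ofReal_mul (p := 16 * (n : ℝ)) (by positivity),
          ENNReal.ofReal_mul (p := (16 : ℝ)) (by norm_num), ENNReal.ofReal_natCast]
        congr 2
        norm_num
  -- the final bound
  set M : ℝ := 16 * ((A + 2) * (2 * C)) / (δ / 2) ^ 2 + K0 * B / (δ / 2) with hM
  have hmain : ∀ n : ℕ, 1 ≤ n → P (stp ρ ch) [] {w | (∀ s ≤ n, ((w s).length : ℝ) ≤ A * √n) ∧
      δ * n < |∑ s ∈ Finset.range n, g (w s) - c * n|} ≤ ENNReal.ofReal (M / √n) := by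
    intro n hn
    have hn0 : (0 : ℝ) < n := by exact_mod_cast hn
    have hsq : 0 < √(n : ℝ) := Real.sqrt_pos.2 hn0
    have hsq1 : 1 ≤ √(n : ℝ) := by
      rw [Real.one_le_sqrt]; exact_mod_cast hn
    have hsqn : √(n : ℝ) * √(n : ℝ) = n := Real.mul_self_sqrt hn0.le
    set H : ℕ := ⌈A * √n⌉₊ with hHdef
    obtain ⟨Γ, hH, hG, hE⟩ := hP H
    set X : (ℕ → List Λ) → ℝ := fun w => ∑ s ∈ Finset.range n,
      bm (stp ρ ch) (fun x y => Ph ρ Γ y - Ph ρ Γ x) (w s) with hX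
    set N : (ℕ → List Λ) → ℝ := fun w => ∑ s ∈ Finset.range n,
      (if w s = [] then (1 : ℝ) else 0) with hN
    have hXm : Measurable X := Finset.measurable_sum _ fun s _ => meas_coord _ s
    have hNm : Measurable N := Finset.measurable_sum _ fun s _ =>
      meas_coord (fun v : List Λ => if v = [] then (1 : ℝ) else 0) s
    have c1 := cheb (μ := P (stp ρ ch) []) (f := fun w => X w ^ 2) (hXm.pow_const 2)
      (M := 16 * n * ((H + 1) * (2 * C))) (a := (δ * n / 2) ^ 2) (by positivity)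
      (by positivity) (hsec n H Γ hn hH hG)
    have c2 := cheb (μ := P (stp ρ ch) []) (f := fun w => K0 * N w) (hNm.const_mul K0)
      (M := K0 * (B * √n)) (a := δ * n / 2) (by positivity) (by positivity) (by
        have : ∀ w, ENNReal.ofReal (K0 * N w) = ENNReal.ofReal K0 * ENNReal.ofReal (N w) :=
          fun w => ENNReal.ofReal_mul hK0n
        simp_rw [this]
        rw [lintegral_const_mul _ hNm.ennreal_ofReal, ENNReal.ofReal_mul hK0n]
        exact mul_le_mul_right (hroot n hn) _)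
    have hsub : P (stp ρ ch) [] {w | (∀ s ≤ n, ((w s).length : ℝ) ≤ A * √n) ∧
        δ * n < |∑ s ∈ Finset.range n, g (w s) - c * n|} ≤
        P (stp ρ ch) [] ({w | (δ * n / 2) ^ 2 ≤ X w ^ 2} ∪ {w | δ * n / 2 ≤ K0 * N w}) := by
      refine measure_mono_ae ?_
      filter_upwards [h3 Λ ρ ch h0] with w hw hmem
      have hmem' : (∀ s ≤ n, ((w s).length : ℝ) ≤ A * √n) ∧
        δ * n < |∑ s ∈ Finset.range n, g (w s) - c * n| := hmem
      have hb := path_bound hρ0 h0 hG hE w n (fun s => (hw.2 s).1) (fun s hs => by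
        have h8 := hmem'.1 s hs.le
        have h9 := le_trans h8 (Nat.le_ceil (A * √n))
        exact_mod_cast h9)
      have hb' : |∑ s ∈ Finset.range n, g (w s) - c * n| ≤ |X w| + K0 * N w := hb
      by_cases hx : δ * n / 2 ≤ K0 * N w
      · exact Or.inr hx
      · left
        have h10 : δ * n / 2 ≤ |X w| := by
          have := hmem'.2
          push Not at hx
          linarith
        show (δ * n / 2) ^ 2 ≤ X w ^ 2
        rw [← sq_abs (X w)]
        exact pow_le_pow_left₀ (by positivity) h10 2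
    refine le_trans hsub (le_trans (measure_union_le _ _) (le_trans (add_le_add c1 c2) ?_))
    rw [← ENNReal.ofReal_add (by positivity) (by positivity)]
    refine ENNReal.ofReal_le_ofReal ?_
    have hHle : (H : ℝ) + 1 ≤ (A + 2) * √n := by
      have := Nat.ceil_lt_add_one (show 0 ≤ A * √(n : ℝ) by positivity)
      nlinarith
    have e1 : 16 * n * ((H + 1) * (2 * C)) / (δ * n / 2) ^ 2 ≤
        16 * ((A + 2) * (2 * C)) / (δ / 2) ^ 2 / √n := by
      have : 16 * ((A + 2) * (2 * C)) / (δ / 2) ^ 2 / √n =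
          16 * n * (((A + 2) * √n) * (2 * C)) / (δ * n / 2) ^ 2 := by
        rw [div_div, div_eq_div_iff (by positivity) (by positivity)]
        linear_combination (16 * (A + 2) * (2 * C) * (δ / 2) ^ 2 * n) * (- hsqn)
      rw [this]
      refine div_le_div_of_nonneg_right ?_ (by positivity)
      refine mul_le_mul_of_nonneg_left ?_ (by positivity)
      exact mul_le_mul_of_nonneg_right hHle (by positivity)
    have e2 : K0 * (B * √n) / (δ * n / 2) = K0 * B / (δ / 2) / √n := by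
      rw [div_div, div_eq_div_iff (by positivity) (by positivity)]
      linear_combination (K0 * B * (δ / 2)) * hsqn
    rw [hM, add_div]
    linarith
  have hlim : Tendsto (fun n : ℕ => ENNReal.ofReal (M / √n)) atTop (𝓝 0) := by
    have h5 : Tendsto (fun n : ℕ => M / √(n : ℝ)) atTop (𝓝 0) :=
      tendsto_const_nhds.div_atTop
        (Real.tendsto_sqrt_atTop.comp tendsto_natCast_atTop_atTop)
    have h6 := (ENNReal.continuous_ofReal.tendsto 0).comp h5
    rw [ENNReal.ofReal_zero] at h6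
    exact h6
  refine tendsto_of_tendsto_of_tendsto_of_le_of_le' tendsto_const_nhds hlim
    (Eventually.of_forall fun _ => zero_le) ?_
  filter_upwards [eventually_ge_atTop 1] with n hn
  exact hmain n hn

end Pool.Agent.H27
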